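import Pool.Agent.MP_826def_gt.H72.Pre
import Pool.Agent.MP_826def_gt.BD.Main
import Pool.Agent.MP_826def_gt.BQ.QA
import Pool.Agent.MP_826def_gt.BL.LN
import Pool.Agent.MP_826def_gt.BL.Cb
import Pool.Agent.MP_826def_gt.BL.Cb0
import Pool.Agent.MP_826def_gt.BL.Cb1
import Pool.Agent.MP_826def_gt.BL.Cl
import Pool.Agent.MP_826def_gt.BL.Clopen
import Pool.Agent.MP_826def_gt.BG.Reg
import Pool.Agent.MP_826def_gt.BH.All
import Pool.Agent.MP_826def_gt.BN.NoSec

/-! The main topological theorem. -/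

namespace Pool.Agent.MP_826def_gt.H72

open Pool.Agent.MP_826def_gt.MU

theorem ln : S_LN :=
  BL.ln0 api BL.cl (BL.cb api fgl (BL.cb1 api split (BL.clopen api) (BL.cb0 api fgl split ch)))

theorem qa : S_QA := BQ.qa api (BD.quillen api thom gys cpx pbt) gys cpx les gp dg

theorem noSec : S_NoSec :=
  BN.noSec api (BH.sH BG.sFm) (BG.reg api qa gp dg ln cpr) fgl gys cpr

end Pool.Agent.MP_826def_gt.H72
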