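import Pool.Agent.MP_826def_gt.BI.FinalOf

/-! The logarithmic lower bound for the sequential topological complexity. -/

namespace Pool.Agent.MP_826def_gt.H72

open Pool.Agent.MP_826def_gt.MU

theorem logBound (hT : S_TC) (hN : S_NoSec) (r : ℕ) (hr : 2 ≤ r) : ∃ C : ℕ,
    ∀ (G : Type) [Group G] [Fintype G], Even (Fintype.card G) → ∀ k : ℕ,
      ((r * k : ℕ) : ℕ∞) ≤ H44.TC r (H44.BG G k) + ((C * (1 + Nat.log 2 k) : ℕ) : ℕ∞) := by
  let i₀ : Fin r := ⟨0, by omega⟩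
  let i₁ : Fin r := ⟨1, by omega⟩
  have hi : i₀ ≠ i₁ := fun e => zero_ne_one (congrArg Fin.val e)
  obtain ⟨c, hc⟩ := hN r i₀ i₁ hi
  refine ⟨r * ((4 * r + 2) * (c + 1) + 2), fun G _ _ hG k => ?_⟩
  have := Fact.mk Nat.prime_two
  obtain ⟨τ, hτ⟩ := exists_prime_orderOf_dvd_card 2 hG.two_dvd
  have t1 : τ ≠ 1 := fun e => by simp [e] at hτ
  have t2 : τ * τ = 1 := by rw [← pow_two, ← hτ, pow_orderOf_eq_one]
  obtain ⟨l, hl⟩ : ∃ l, l = 1 + Nat.log 2 k := ⟨_, rfl⟩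
  obtain ⟨s, hs⟩ : ∃ s, s = (c + 1) * l := ⟨_, rfl⟩
  have l1 : 1 ≤ l := by omega
  have s1 : 0 < s := hs ▸ Nat.mul_pos (by omega) l1
  have rs : r * s ≠ 0 := (Nat.mul_pos (by omega) s1).ne'
  obtain ⟨L, hL⟩ : ∃ L, L = Nat.log 2 (r * s) + 1 := ⟨_, rfl⟩
  have p1 : r * s < 2 ^ L := hL ▸ Nat.lt_pow_succ_log_self one_lt_two _
  have p2 : 2 ^ L ≤ 2 * (r * s) := by
    rw [hL, pow_succ, mul_comm]
    exact Nat.mul_le_mul_left 2 (Nat.pow_log_le_self 2 rs)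
  obtain ⟨j', hj'⟩ : ∃ j', j' = ((k + 1) / 2 - s - 1) / 2 ^ L := ⟨_, rfl⟩
  obtain ⟨j, hj⟩ : ∃ j, j = 2 ^ L * j' := ⟨_, rfl⟩
  have q1 : j ≤ (k + 1) / 2 - s - 1 := by rw [hj, hj']; exact Nat.mul_div_le _ _
  have q2 : (k + 1) / 2 - s - 1 < j + 2 ^ L := by
    rw [hj, hj']; exact Nat.lt_mul_div_succ _ (by positivity)
  have key : ((2 * (r * j) : ℕ) : ℕ∞) ≤ H44.TC r (H44.BG G k) := by
    rcases Nat.eq_zero_or_pos j' with h0 | h0
    · simp [hj, h0]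
    have j1 : 0 < j := hj ▸ Nat.mul_pos (by positivity) h0
    refine le_iInf₂ fun n hn => Nat.cast_le.2 (not_lt.1 fun hlt => ?_)
    refine hc L j' s h0 p1 ?_ (hT G τ t1 t2 r i₀ _ k n _ (if_pos rfl) ?_ ?_ hn)
    · have : Nat.log 2 (2 * (2 ^ L * j')) ≤ Nat.log 2 k := Nat.log_mono_right (by omega)
      calc c * (1 + Nat.log 2 (2 * (2 ^ L * j'))) ≤ (c + 1) * l :=
            Nat.mul_le_mul (by omega) (by omega)
        _ = s := hs.symm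
    · omega
    · rw [BI.sum_ex hi, ← hj]
      omega
  refine le_trans ?_ (add_le_add_left key _)
  rw [← Nat.cast_add, Nat.cast_le, ← hl]
  have q3 : k ≤ 2 * j + ((4 * r + 2) * s + 2 * l) := by
    have : (4 * r + 2) * s = 4 * (r * s) + 2 * s := by ring
    omega
  calc r * k ≤ r * (2 * j + ((4 * r + 2) * s + 2 * l)) := Nat.mul_le_mul_left r q3
    _ = _ := by rw [hs]; ring

end Pool.Agent.MP_826def_gt.H72
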