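import Pool.Agent.MP_826def_gt.BA.All
import Pool.Agent.MP_826def_gt.BP.All
import Pool.Agent.MP_826def_gt.BM.MV0
import Pool.Agent.MP_826def_gt.BM.Les
import Pool.Agent.MP_826def_gt.BT.Thom
import Pool.Agent.MP_826def_gt.BT.Gys
import Pool.Agent.MP_826def_gt.BC.All
import Pool.Agent.MP_826def_gt.BF.Fgl
import Pool.Agent.MP_826def_gt.BF.Split
import Pool.Agent.MP_826def_gt.BF.Ch
import Pool.Agent.MP_826def_gt.BE.GP

/-! The unconditional forms of the general theorems on complex cobordism. -/

namespace Pool.Agent.MP_826def_gt.H72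

open Pool.Agent.MP_826def_gt.MU

instance core : Fact Core := ⟨BA.core⟩

theorem api : Api := BP.api
theorem mv : S_MV0 := BM.mv0 BA.core.good1 BA.core.good2 BA.core.eqv
theorem thom : S_Thom := BT.thom api
theorem les : S_LES := BM.les api mv thom
theorem gys : S_Gys := BT.gys api les thom
theorem cpx : S_CPX := BC.cpx api les thom
theorem cpr : S_CPr := BC.cpr api cpx
theorem pbt : S_PBT := BC.pbtAll api les cpx
theorem fgl : S_FGL := BF.fgl api cpr
theorem split : S_Split := BF.split api pbt
theorem ch : S_Ch := BF.ch api pbt fgl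
theorem gp : S_GP := BE.sGP
theorem dg : S_DG := BE.sDG

end Pool.Agent.MP_826def_gt.H72
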