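import Pool.Agent.MP_826def_gt.H72.Log

/-! The rate of convergence for the growth function. -/

namespace Pool.Agent.MP_826def_gt.H72

open Pool.Agent.MP_826def_gt.MU Set

theorem small_log (C : ℕ) : ∃ k₀ : ℕ, ∀ k, k₀ ≤ k → C * (1 + Nat.log 2 k) ≤ k := by
  refine ⟨2 ^ (2 * C + 2), fun k hk => ?_⟩
  obtain ⟨l, hl⟩ : ∃ l, l = Nat.log 2 k := ⟨_, rfl⟩
  have k0 : k ≠ 0 := (lt_of_lt_of_le (by positivity) hk).ne'
  have h1 : 2 * C + 2 ≤ l := hl ▸ Nat.le_log_of_pow_le one_lt_two hk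
  have h2 : 2 ^ l ≤ k := hl ▸ Nat.pow_log_le_self 2 k0
  obtain ⟨m, rfl⟩ := Nat.exists_eq_add_of_le h1
  rw [← hl]
  refine le_trans ?_ h2
  have a1 : C < 2 ^ C := Nat.lt_two_pow_self
  have a2 : C + m < 2 ^ (C + m) := Nat.lt_two_pow_self
  calc C * (1 + (2 * C + 2 + m)) ≤ 2 ^ C * (4 * 2 ^ (C + m)) := Nat.mul_le_mul a1.le (by omega)
    _ = 2 ^ (2 * C + 2 + m) := by ring

theorem rate (hT : S_TC) (hN : S_NoSec) (r : ℕ) (hr : 2 ≤ r) : ∃ C : ℝ,
    ∀ (G : Type) [Group G] [Fintype G], Even (Fintype.card G) → ∀ n : ℕ, 1 ≤ n →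
      |(H44.alpha G r n : ℝ) - (n : ℝ) / (r : ℝ)| ≤ C * (1 + Real.log n) := by
  obtain ⟨C, hC⟩ := logBound hT hN r hr
  obtain ⟨k₀, hk⟩ := small_log C
  refine ⟨2 * C + k₀ + 1, fun G _ _ hG n hn => ?_⟩
  classical
  have r0 : (0 : ℝ) < r := Nat.cast_pos.2 (by omega)
  have r1 : (1 : ℝ) ≤ r := Nat.one_le_cast.2 (by omega)
  have up : {k : ℕ | 1 ≤ k ∧ H44.TC r (H44.BG G k) ≤ n} ⊆
      Icc 1 ((n + C * (1 + Nat.log 2 n)) / r + k₀) := fun k h => by
    refine ⟨h.1, ?_⟩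
    have h1 : r * k ≤ n + C * (1 + Nat.log 2 k) := by
      have := (hC G hG k).trans (add_le_add_left h.2 _)
      rwa [← Nat.cast_add, Nat.cast_le] at this
    rcases le_total k k₀ with h2 | h2
    · exact h2.trans (Nat.le_add_left _ _)
    · have h3 := hk k h2
      have h4 : 2 * k ≤ r * k := Nat.mul_le_mul_right k hr
      have h5 := Nat.mul_le_mul_left C
        (Nat.add_le_add_left (Nat.log_mono_right (b := 2) (show k ≤ n by omega)) 1)
      refine le_trans ((Nat.le_div_iff_mul_le (by omega)).2 ?_) (Nat.le_add_right _ _)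
      rw [mul_comm]
      omega
  have lo : Icc 1 (n / r) ⊆ {k : ℕ | 1 ≤ k ∧ H44.TC r (H44.BG G k) ≤ n} := fun k h =>
    ⟨h.1, (iInf₂_le (r * k) (H44.upper r k)).trans (Nat.cast_le.2 (by
      rw [mul_comm]
      exact (Nat.le_div_iff_mul_le (by omega)).1 h.2))⟩
  have a1 : H44.alpha G r n ≤ (n + C * (1 + Nat.log 2 n)) / r + k₀ := by
    simpa [H44.alpha] using ncard_le_ncard up (finite_Icc _ _)
  have a2 : n / r ≤ H44.alpha G r n := by
    simpa [H44.alpha] using ncard_le_ncard lo ((finite_Icc _ _).subset up)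
  have l0 : 0 ≤ Real.log n := Real.log_natCast_nonneg n
  have l1 : (Nat.log 2 n : ℝ) ≤ 2 * Real.log n := by
    have h1 : ((2 ^ Nat.log 2 n : ℕ) : ℝ) ≤ n := Nat.cast_le.2 (Nat.pow_log_le_self 2 (by omega))
    have h2 := Real.log_le_log (by positivity) h1
    rw [Nat.cast_pow, Real.log_pow] at h2
    have h3 := Real.log_two_gt_d9
    have h4 : (0 : ℝ) ≤ Nat.log 2 n := Nat.cast_nonneg _
    push_cast at h2
    nlinarith
  have c0 : (0 : ℝ) ≤ C := Nat.cast_nonneg _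
  have k0 : (0 : ℝ) ≤ k₀ := Nat.cast_nonneg _
  have b1 : (H44.alpha G r n : ℝ) ≤ n / r + C * (1 + Nat.log 2 n) + k₀ := by
    have h1 : (H44.alpha G r n : ℝ) ≤ ((n + C * (1 + Nat.log 2 n)) / r : ℕ) + k₀ := by
      exact_mod_cast a1
    have h2 : (((n + C * (1 + Nat.log 2 n)) / r : ℕ) : ℝ) ≤ (n + C * (1 + Nat.log 2 n)) / r := by
      exact_mod_cast Nat.cast_div_le (α := ℝ)
    have h3 : (C * (1 + Nat.log 2 n) : ℝ) / r ≤ C * (1 + Nat.log 2 n) :=
      div_le_self (by positivity) r1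
    rw [add_div] at h2
    linarith
  have b2 : (n : ℝ) / r ≤ H44.alpha G r n + 1 := by
    have h1 : ((n / r : ℕ) : ℝ) ≤ H44.alpha G r n := Nat.cast_le.2 a2
    have h2 : (n : ℝ) ≤ ((n / r : ℕ) + 1) * r := by
      exact_mod_cast (mul_comm r _ ▸ Nat.lt_mul_div_succ n (show 0 < r by omega)).le
    rw [div_le_iff₀ r0]
    nlinarith
  rw [abs_le]
  constructor <;> nlinarith [mul_nonneg c0 l0, mul_nonneg k0 l0, mul_le_mul_of_nonneg_left l1 c0]

end Pool.Agent.MP_826def_gt.H72
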